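import Pool.Agent.Helper38.SM.Gibbs
import Pool.Agent.Helper4.SM.PI

/-!
Few coordinates have a large conditional density.
-/

set_option autoImplicit false

open MeasureTheory Set Filter Topology

namespace Pool.Agent.Helper34.SM

open Pool.Agent.Helper63.SM

variable {X : Type*} [MeasurableSpace X] {μ : Measure X} [IsProbabilityMeasure μ]
  {R : X → X → Prop} {k : ℕ} {f : (Fin k → X) → ℝ}

private theorem mp_upd (a : Fin k) :
    MeasurePreserving (fun p : (Fin k → X) × X => Function.update p.1 a p.2)
      ((Measure.pi fun _ : Fin k => μ).prod μ) (Measure.pi fun _ : Fin k => μ) := by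
  have hm : Measurable (fun p : (Fin k → X) × X => Function.update p.1 a p.2) := by
    rw [measurable_pi_iff]
    intro i
    by_cases h : i = a
    · subst h
      simpa using measurable_snd
    · simp only [Function.update_of_ne h]
      exact (measurable_pi_apply i).comp measurable_fst
  refine ⟨hm, ?_⟩
  symm
  apply Measure.pi_eq
  intro s hs
  rw [Measure.map_apply hm (MeasurableSet.univ_pi hs)]
  have he : (fun p : (Fin k → X) × X => Function.update p.1 a p.2) ⁻¹' (Set.pi univ s) =
      (Set.pi univ (Function.update s a univ)) ×ˢ (s a) := by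
    ext p
    simp only [mem_preimage, Set.mem_pi, mem_univ, true_imp_iff, mem_prod]
    constructor
    · intro h
      refine ⟨fun i => ?_, by simpa using h a⟩
      by_cases hi : i = a
      · subst hi; simp
      · have := h i
        rw [Function.update_of_ne hi] at this
        rw [Function.update_of_ne hi]; exact this
    · rintro ⟨h1, h2⟩ i
      by_cases hi : i = a
      · subst hi; simpa using h2
      · have := h1 i
        rw [Function.update_of_ne hi] at this
        rw [Function.update_of_ne hi]; exact this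
  rw [he, Measure.prod_prod, Measure.pi_pi]
  rw [← Finset.prod_erase_mul _ _ (Finset.mem_univ a),
    ← Finset.prod_erase_mul (Finset.univ) (fun i => μ (s i)) (Finset.mem_univ a)]
  simp only [Function.update_self, measure_univ, mul_one]
  congr 1
  apply Finset.prod_congr rfl
  intro i hi
  rw [Function.update_of_ne (Finset.ne_of_mem_erase hi)]

private theorem lint_upd (a : Fin k) {G : (Fin k → X) → ENNReal} (hG : Measurable G) :
    ∫⁻ x, G x ∂(Measure.pi fun _ : Fin k => μ) =
      ∫⁻ x, ∫⁻ z, G (Function.update x a z) ∂μ ∂(Measure.pi fun _ : Fin k => μ) := by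
  rw [← (mp_upd (μ := μ) a).lintegral_comp hG]
  exact lintegral_prod _ ((hG.comp (mp_upd (μ := μ) a).measurable).aemeasurable)

private theorem mem_ch (e : Equiv.Perm (Fin k)) (t : ℕ) (i : Fin k) :
    e i ∈ ch e t ↔ (i : ℕ) < t := by
  simp [ch]

private theorem ch_succ (e : Equiv.Perm (Fin k)) (t : Fin k) :
    insert (e t) (ch e t) = ch e ((t : ℕ) + 1) := by
  ext i
  obtain ⟨j, rfl⟩ := e.surjective i
  rw [Finset.mem_insert, mem_ch, mem_ch, e.injective.eq_iff]
  constructor
  · rintro (rfl | h) <;> omega
  · intro h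
    by_cases hj : j = t
    · exact Or.inl hj
    · right
      have : (j : ℕ) ≠ t := fun h' => hj (Fin.ext h')
      omega

/-- the conditional density of the next coordinate -/
private noncomputable def rho (μ : Measure X) (f : (Fin k → X) → ℝ) (e : Equiv.Perm (Fin k))
    (t : Fin k) (x : Fin k → X) : ℝ :=
  mg μ (ch e ((t : ℕ) + 1)) f x / mg μ (ch e t) f x

private theorem rho_meas (hf : Dens μ f) (e : Equiv.Perm (Fin k)) (t : Fin k) :
    Measurable (rho μ f e t) :=
  (mg_dens hf _).meas.div (mg_dens hf _).meas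

private theorem rho_nonneg (hf : Dens μ f) (e : Equiv.Perm (Fin k)) (t : Fin k) (x : Fin k → X) :
    0 ≤ rho μ f e t x :=
  div_nonneg ((mg_dens hf _).nonneg x) ((mg_dens hf _).nonneg x)

omit [MeasurableSpace X] in
private theorem upd_ne {x : Fin k → X} (e : Equiv.Perm (Fin k)) {i t : Fin k} (h : i ≠ t) (z : X) :
    Function.update x (e t) z (e i) = x (e i) :=
  Function.update_of_ne (fun h' => h (e.injective h')) _ _

omit [IsProbabilityMeasure μ] in
private theorem mg_upd (e : Equiv.Perm (Fin k)) {s : ℕ} {t : Fin k} (h : s ≤ t) (x : Fin k → X)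
    (z : X) : mg μ (ch e s) f (Function.update x (e t) z) = mg μ (ch e s) f x := by
  apply mg_congr
  intro i hi
  obtain ⟨j, rfl⟩ := e.surjective i
  rw [mem_ch] at hi
  apply upd_ne
  rintro rfl
  omega

private theorem rho_int (hf : Dens μ f) (e : Equiv.Perm (Fin k)) (t : Fin k) (x : Fin k → X) :
    ∫⁻ z, ENNReal.ofReal (rho μ f e t (Function.update x (e t) z)) ∂μ ≤ 1 := by
  obtain ⟨C, hC⟩ := (mg_dens hf (ch e ((t : ℕ) + 1))).bdd
  have h0 := (mg_dens hf (ch e ((t : ℕ) + 1))).nonneg
  have hmz : Measurable fun z : X => mg μ (ch e ((t : ℕ) + 1)) f (Function.update x (e t) z) :=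
    (mg_dens hf (ch e ((t : ℕ) + 1))).meas.comp (measurable_update x)
  have hi : Integrable (fun z : X => mg μ (ch e ((t : ℕ) + 1)) f (Function.update x (e t) z)) μ := by
    apply Integrable.of_bound hmz.aestronglyMeasurable C
    filter_upwards with z
    rw [Real.norm_eq_abs, abs_of_nonneg (h0 _)]
    exact hC _
  have hr : ∀ z, rho μ f e t (Function.update x (e t) z) =
      mg μ (ch e ((t : ℕ) + 1)) f (Function.update x (e t) z) / mg μ (ch e t) f x := by
    intro z
    rw [rho, mg_upd e le_rfl]
  simp_rw [hr]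
  rw [← ofReal_integral_eq_lintegral_ofReal (hi.div_const _)
    (Eventually.of_forall fun z => div_nonneg (h0 _) ((mg_dens hf _).nonneg _)),
    integral_div]
  have hst := mg_step hf (S := ch e t) (a := e t) (by rw [mem_ch]; omega) x
  rw [ch_succ] at hst
  rw [← hst]
  rw [← ENNReal.ofReal_one]
  exact ENNReal.ofReal_le_ofReal (div_self_le_one _)

private theorem prod_step (hf : Dens μ f) (e : Equiv.Perm (Fin k)) (V : Finset (Fin k)) :
    ∀ h : (Fin k → X) → ENNReal, Measurable h →
      (∀ x x' : Fin k → X, (∀ i, i ∉ V → x (e i) = x' (e i)) → h x = h x') →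
      ∫⁻ x, h x * ∏ t ∈ V, ENNReal.ofReal (rho μ f e t x) ∂(Measure.pi fun _ : Fin k => μ) ≤
        ∫⁻ x, h x ∂(Measure.pi fun _ : Fin k => μ) := by
  induction V using Finset.induction_on_max with
  | empty => intro h _ _; simp
  | insert t V' ht ih =>
    intro h hm hdep
    have hnot : t ∉ V' := fun h' => lt_irrefl _ (ht t h')
    have hPm : Measurable fun x => ∏ t' ∈ V', ENNReal.ofReal (rho μ f e t' x) :=
      Finset.measurable_fun_prod _ fun i _ => (rho_meas hf e i).ennreal_ofReal
    have hHm : Measurable fun x => h x * ∏ t' ∈ V', ENNReal.ofReal (rho μ f e t' x) := hm.mul hPm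
    have hG : Measurable fun x => h x * ∏ t' ∈ insert t V', ENNReal.ofReal (rho μ f e t' x) :=
      hm.mul (Finset.measurable_fun_prod _ fun i _ => (rho_meas hf e i).ennreal_ofReal)
    rw [lint_upd (e t) hG]
    have hin : ∀ x : Fin k → X, ∫⁻ z, h (Function.update x (e t) z) *
        ∏ t' ∈ insert t V', ENNReal.ofReal (rho μ f e t' (Function.update x (e t) z)) ∂μ ≤
          h x * ∏ t' ∈ V', ENNReal.ofReal (rho μ f e t' x) := by
      intro x
      have hre : ∀ z, h (Function.update x (e t) z) *
          ∏ t' ∈ insert t V', ENNReal.ofReal (rho μ f e t' (Function.update x (e t) z)) =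
          (h x * ∏ t' ∈ V', ENNReal.ofReal (rho μ f e t' x)) *
            ENNReal.ofReal (rho μ f e t (Function.update x (e t) z)) := by
        intro z
        rw [Finset.prod_insert hnot]
        have h1 : h (Function.update x (e t) z) = h x := by
          apply hdep
          intro i hi
          apply upd_ne
          rintro rfl
          exact hi (Finset.mem_insert_self _ _)
        have h2 : ∏ t' ∈ V', ENNReal.ofReal (rho μ f e t' (Function.update x (e t) z)) =
            ∏ t' ∈ V', ENNReal.ofReal (rho μ f e t' x) := by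
          apply Finset.prod_congr rfl
          intro t' ht'
          have hlt : (t' : ℕ) < t := ht t' ht'
          rw [rho, rho, mg_upd e (by omega), mg_upd e (by omega)]
        rw [h1, h2]
        ring
      simp_rw [hre]
      rw [lintegral_const_mul _ (show Measurable fun z : X =>
        ENNReal.ofReal (rho μ f e t (Function.update x (e t) z)) from
          ((rho_meas hf e t).comp (measurable_update x)).ennreal_ofReal)]
      calc _ ≤ (h x * ∏ t' ∈ V', ENNReal.ofReal (rho μ f e t' x)) * 1 := by
            gcongr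
            exact rho_int hf e t x
        _ = _ := mul_one _
    refine (lintegral_mono hin).trans (ih h hm fun x x' hxx => hdep x x' fun i hi => hxx i ?_)
    exact fun h' => hi (Finset.mem_insert_of_mem h')

/-- the tuples for which the coordinate `t` is heavy -/
private def HS (μ : Measure X) (K : ℝ) (f : (Fin k → X) → ℝ) (e : Equiv.Perm (Fin k))
    (t : Fin k) : Set (Fin k → X) :=
  {x | K * mg μ (ch e t) f x < mg μ (insert (e t) (ch e t)) f x}

private theorem hs_meas (hf : Dens μ f) (K : ℝ) (e : Equiv.Perm (Fin k)) (t : Fin k) :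
    MeasurableSet (HS μ K f e t) :=
  measurableSet_lt ((mg_dens hf _).meas.const_mul K) (mg_dens hf _).meas

open Classical in
/-- the heavy coordinates -/
private noncomputable def VV (μ : Measure X) (K : ℝ) (f : (Fin k → X) → ℝ)
    (e : Equiv.Perm (Fin k)) (x : Fin k → X) : Finset (Fin k) :=
  Finset.univ.filter fun t => x ∈ HS μ K f e t

omit [IsProbabilityMeasure μ] in
private theorem mem_vv (K : ℝ) (e : Equiv.Perm (Fin k)) (x : Fin k → X) (t : Fin k) :
    t ∈ VV μ K f e x ↔ x ∈ HS μ K f e t := by
  simp [VV]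

private theorem vv_meas (hf : Dens μ f) (K : ℝ) (e : Equiv.Perm (Fin k)) (V : Finset (Fin k)) :
    MeasurableSet {x | VV μ K f e x = V} := by
  have h : {x | VV μ K f e x = V} = ⋂ t : Fin k, {x | t ∈ V ↔ x ∈ HS μ K f e t} := by
    ext x
    simp only [mem_ofPred_eq, mem_iInter]
    rw [Finset.ext_iff]
    refine forall_congr' fun t => ?_
    rw [mem_vv]
    exact iff_comm
  rw [h]
  refine MeasurableSet.iInter fun t => ?_
  by_cases ht : t ∈ V
  · have h2 : {x | t ∈ V ↔ x ∈ HS μ K f e t} = HS μ K f e t := by
      ext x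
      simp [ht]
    rw [h2]
    exact hs_meas hf K e t
  · have h2 : {x | t ∈ V ↔ x ∈ HS μ K f e t} = (HS μ K f e t)ᶜ := by
      ext x
      simp [ht]
    rw [h2]
    exact (hs_meas hf K e t).compl

/-- the comparison density -/
private noncomputable def gg (μ : Measure X) (R : X → X → Prop) (K : ℝ) (f : (Fin k → X) → ℝ)
    (e : Equiv.Perm (Fin k)) (x : Fin k → X) : ℝ :=
  (∏ t ∈ VV μ K f e x, rho μ f e t x) * (2 ^ k * pr μ R (k - (VV μ K f e x).card))⁻¹

private theorem gg_meas (hf : Dens μ f) (K : ℝ) (e : Equiv.Perm (Fin k)) :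
    Measurable (gg μ R K f e) := by
  have h : gg μ R K f e = fun x => ∑ V : Finset (Fin k), ({x | VV μ K f e x = V}).indicator
      (fun x => (∏ t ∈ V, rho μ f e t x) * (2 ^ k * pr μ R (k - V.card))⁻¹) x := by
    funext x
    rw [Finset.sum_eq_single (VV μ K f e x)]
    · rw [indicator_of_mem (by simp)]
      rfl
    · intro V _ hV
      rw [indicator_of_notMem]
      exact fun h => hV h.symm
    · intro h
      exact absurd (Finset.mem_univ _) h
  rw [h]
  refine Finset.measurable_fun_sum _ fun V _ => ?_
  refine Measurable.indicator ?_ (vv_meas hf K e V)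
  exact (Finset.measurable_fun_prod _ fun i _ => rho_meas hf e i).mul_const _

private theorem ind_meas34 (hR : MeasurableSet {p : X × X | R p.1 p.2}) (S : Finset (Fin k)) :
    MeasurableSet (IndS R S) := by
  have h : IndS R S = ⋂ i ∈ S, ⋂ j ∈ S, {x : Fin k → X | i ≠ j → ¬ R (x i) (x j)} := by
    ext x
    simp [IndS]
  rw [h]
  refine Finset.measurableSet_biInter _ fun i _ => Finset.measurableSet_biInter _ fun j _ => ?_
  by_cases hij : i = j
  · simp [hij]
  · have h2 : {x : Fin k → X | i ≠ j → ¬ R (x i) (x j)} =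
        ((fun x : Fin k → X => (x i, x j)) ⁻¹' {p : X × X | R p.1 p.2})ᶜ := by
      ext x
      simp [hij]
    rw [h2]
    exact (((measurable_pi_apply i).prodMk (measurable_pi_apply j)) hR).compl

private theorem ind_lint (hR : MeasurableSet {p : X × X | R p.1 p.2}) (e : Equiv.Perm (Fin k))
    (V : Finset (Fin k)) :
    (Measure.pi fun _ : Fin k => μ) (IndS R (V.map e.toEmbedding)ᶜ) =
      ENNReal.ofReal (pr μ R (k - V.card)) := by
  rw [← ENNReal.ofReal_toReal (measure_ne_top (Measure.pi fun _ : Fin k => μ)
    (IndS R (V.map e.toEmbedding)ᶜ))]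
  congr 1
  have h := indS_prob (μ := μ) hR ((V.map e.toEmbedding)ᶜ)
  rw [Finset.card_compl, Finset.card_map, Fintype.card_fin] at h
  exact h

private theorem gg_lint (hR : MeasurableSet {p : X × X | R p.1 p.2}) (hf : Dens μ f)
    (hs : ∀ x, f x ≠ 0 → x ∈ IndS R Finset.univ) (K : ℝ) (e : Equiv.Perm (Fin k))
    (hP : ∀ j ≤ k, 0 < pr μ R j) :
    ∫⁻ x in {x | 0 < f x}, ENNReal.ofReal (gg μ R K f e x) ∂(Measure.pi fun _ : Fin k => μ) ≤
      ENNReal.ofReal 1 := by
  set c : Finset (Fin k) → ENNReal := fun V =>
    ENNReal.ofReal (2 ^ k * pr μ R (k - V.card))⁻¹ with hc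
  set hh : Finset (Fin k) → (Fin k → X) → ENNReal := fun V =>
    (IndS R (V.map e.toEmbedding)ᶜ).indicator (fun _ => (1 : ENNReal)) with hhh
  have hhm : ∀ V, Measurable (hh V) := fun V =>
    measurable_const.indicator (ind_meas34 hR _)
  have hPm : ∀ V : Finset (Fin k), Measurable fun x => ∏ t ∈ V, ENNReal.ofReal (rho μ f e t x) :=
    fun V => Finset.measurable_fun_prod _ fun i _ => (rho_meas hf e i).ennreal_ofReal
  have hHm : ∀ V : Finset (Fin k), Measurable fun x =>
      hh V x * ∏ t ∈ V, ENNReal.ofReal (rho μ f e t x) := fun V => (hhm V).mul (hPm V)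
  have hpt : ∀ x ∈ {x | 0 < f x}, ENNReal.ofReal (gg μ R K f e x) ≤
      ∑ V : Finset (Fin k), hh V x * (∏ t ∈ V, ENNReal.ofReal (rho μ f e t x)) * c V := by
    intro x hx
    have hx0 : x ∈ IndS R (Finset.univ : Finset (Fin k)) := hs x (ne_of_gt hx)
    have h1 : ENNReal.ofReal (gg μ R K f e x) = hh (VV μ K f e x) x *
        (∏ t ∈ VV μ K f e x, ENNReal.ofReal (rho μ f e t x)) * c (VV μ K f e x) := by
      have h2 : hh (VV μ K f e x) x = 1 := by
        rw [hhh]
        refine indicator_of_mem ?_ _
        exact fun i _ j _ hij => hx0 i (Finset.mem_univ i) j (Finset.mem_univ j) hij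
      rw [h2, one_mul, gg, ENNReal.ofReal_mul (Finset.prod_nonneg fun t _ => rho_nonneg hf e t x),
        ENNReal.ofReal_prod_of_nonneg fun t _ => rho_nonneg hf e t x]
    rw [h1]
    exact Finset.single_le_sum (f := fun V => hh V x *
      (∏ t ∈ V, ENNReal.ofReal (rho μ f e t x)) * c V) (fun _ _ => zero_le) (Finset.mem_univ _)
  calc ∫⁻ x in {x | 0 < f x}, ENNReal.ofReal (gg μ R K f e x) ∂(Measure.pi fun _ : Fin k => μ)
      ≤ ∫⁻ x in {x | 0 < f x}, ∑ V : Finset (Fin k),
          hh V x * (∏ t ∈ V, ENNReal.ofReal (rho μ f e t x)) * c V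
          ∂(Measure.pi fun _ : Fin k => μ) := by
        refine setLIntegral_mono' (measurableSet_lt measurable_const hf.meas) hpt
    _ ≤ ∫⁻ x, ∑ V : Finset (Fin k),
          hh V x * (∏ t ∈ V, ENNReal.ofReal (rho μ f e t x)) * c V
          ∂(Measure.pi fun _ : Fin k => μ) := setLIntegral_le_lintegral _ _
    _ = ∑ V : Finset (Fin k), (∫⁻ x, hh V x * (∏ t ∈ V, ENNReal.ofReal (rho μ f e t x))
          ∂(Measure.pi fun _ : Fin k => μ)) * c V := by
        rw [lintegral_finsetSum _ fun V _ => (hHm V).mul_const _]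
        refine Finset.sum_congr rfl fun V _ => ?_
        rw [lintegral_mul_const _ (hHm V)]
    _ ≤ ∑ V : Finset (Fin k), ENNReal.ofReal (pr μ R (k - V.card)) * c V := by
        refine Finset.sum_le_sum fun V _ => ?_
        gcongr
        refine (prod_step hf e V (hh V) (hhm V) fun x x' hxx => ?_).trans ?_
        · have hiff : x ∈ IndS R (V.map e.toEmbedding)ᶜ ↔ x' ∈ IndS R (V.map e.toEmbedding)ᶜ := by
            have hxx' : ∀ i ∈ (V.map e.toEmbedding)ᶜ, x i = x' i := by
              intro i hi
              obtain ⟨j, rfl⟩ := e.surjective i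
              apply hxx
              intro hj
              rw [Finset.mem_compl] at hi
              exact hi (Finset.mem_map.2 ⟨j, hj, rfl⟩)
            constructor
            · intro h i hi j hj hij
              rw [← hxx' i hi, ← hxx' j hj]
              exact h i hi j hj hij
            · intro h i hi j hj hij
              rw [hxx' i hi, hxx' j hj]
              exact h i hi j hj hij
          by_cases hx : x ∈ IndS R (V.map e.toEmbedding)ᶜ
          · rw [hhh]
            simp only
            rw [indicator_of_mem hx, indicator_of_mem (hiff.1 hx)]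
          · rw [hhh]
            simp only
            rw [indicator_of_notMem hx, indicator_of_notMem fun h => hx (hiff.2 h)]
        · rw [hhh]
          simp only
          rw [lintegral_indicator (ind_meas34 hR _), setLIntegral_one, ind_lint hR e V]
    _ = ∑ V : Finset (Fin k), ENNReal.ofReal (2 ^ k)⁻¹ := by
        refine Finset.sum_congr rfl fun V _ => ?_
        have hp0 := hP (k - V.card) (Nat.sub_le _ _)
        rw [hc]
        simp only
        rw [← ENNReal.ofReal_mul hp0.le]
        congr 1
        field_simp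
    _ = ENNReal.ofReal 1 := by
        rw [Finset.sum_const, Finset.card_univ, Fintype.card_finset, Fintype.card_fin,
          nsmul_eq_mul]
        rw [show ((2 ^ k : ℕ) : ENNReal) = ENNReal.ofReal (2 ^ k) by
          rw [ENNReal.ofReal_pow (by norm_num)]; norm_num]
        rw [← ENNReal.ofReal_mul (by positivity)]
        congr 1
        field_simp

/-- **Few coordinates have a large conditional density.** -/
theorem heavy (hR : MeasurableSet {p : X × X | R p.1 p.2}) (hf : Dens μ f)
    (hs : ∀ x, f x ≠ 0 → x ∈ IndS R Finset.univ) (e : Equiv.Perm (Fin k)) {K p δ : ℝ}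
    (hK : 1 ≤ K) (hp : 0 ≤ p)
    (hP : ∀ j ≤ k, 0 < pr μ R j ∧ p / 2 * (j : ℝ) ^ 2 - δ ≤ -Real.log (pr μ R j)) :
    Real.log K * (∑ t : Fin k, hv μ K f (ch e t) (e t)) +
        p / 2 * ((k : ℝ) - ∑ t : Fin k, hv μ K f (ch e t) (e t)) ^ 2 - δ - k * Real.log 2 ≤
      Ent μ Finset.univ f := by
  set P : Measure (Fin k → X) := Measure.pi fun _ : Fin k => μ with hPdef
  set N : ℝ := ∑ t : Fin k, hv μ K f (ch e t) (e t) with hN
  obtain ⟨C, hC⟩ := hf.bdd
  have hfi : Integrable f P := by
    apply Integrable.of_bound hf.meas.aestronglyMeasurable C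
    filter_upwards with x
    rw [Real.norm_eq_abs, abs_of_nonneg (hf.nonneg x)]
    exact hC x
  -- positivity almost everywhere
  have hpos1 : ∀ᵐ x ∂P, ∀ t : Fin k, 0 < f x → 0 < mg μ (ch e t) f x :=
    ae_all_iff.2 fun t => mg_pos_ae hf _
  have hpos2 : ∀ᵐ x ∂P, ∀ t : Fin k, 0 < f x → 0 < mg μ (ch e ((t : ℕ) + 1)) f x :=
    ae_all_iff.2 fun t => mg_pos_ae hf _
  have hrho : ∀ᵐ x ∂P, 0 < f x → ∀ t : Fin k, 0 < rho μ f e t x := by
    filter_upwards [hpos1, hpos2] with x h1 h2 hx t
    exact div_pos (h2 t hx) (h1 t hx)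
  have hprp : ∀ x, 0 < pr μ R (k - (VV μ K f e x).card) := fun x => (hP _ (Nat.sub_le _ _)).1
  have hgpos : ∀ᵐ x ∂P, 0 < f x → 0 < gg μ R K f e x := by
    filter_upwards [hrho] with x h hx
    exact mul_pos (Finset.prod_pos fun t _ => h hx t)
      (inv_pos.2 (mul_pos (by positivity) (hprp x)))
  have hlog : ∀ᵐ x ∂P, 0 < f x → Real.log (gg μ R K f e x) =
      (∑ t ∈ VV μ K f e x, (Real.log (mg μ (ch e ((t : ℕ) + 1)) f x) -
        Real.log (mg μ (ch e t) f x))) - (k * Real.log 2 +
          Real.log (pr μ R (k - (VV μ K f e x).card))) := by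
    filter_upwards [hrho, hpos1, hpos2] with x h h1 h2 hx
    rw [gg, Real.log_mul (Finset.prod_pos fun t _ => h hx t).ne'
      (inv_pos.2 (mul_pos (by positivity) (hprp x))).ne', Real.log_inv,
      Real.log_prod fun t _ => (h hx t).ne', Real.log_mul (by positivity) (hprp x).ne',
      Real.log_pow]
    rw [← sub_eq_add_neg]
    congr 1
    refine Finset.sum_congr rfl fun t _ => ?_
    rw [rho, Real.log_div (h2 t hx).ne' (h1 t hx).ne']
  -- integrability
  have hint : Integrable (fun x => f x * Real.log (gg μ R K f e x)) P := by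
    set A : ℝ := ∑ j ∈ Finset.range (k + 1), |Real.log (pr μ R j)| with hA
    have hb : Integrable (fun x => (∑ t : Fin k,
        (|f x * Real.log (mg μ (ch e ((t : ℕ) + 1)) f x)| +
          |f x * Real.log (mg μ (ch e t) f x)|)) + f x * (k * Real.log 2 + A)) P := by
      refine Integrable.add ?_ (hfi.mul_const _)
      refine integrable_finsetSum _ fun t _ => ?_
      exact ((ent_int hf _).1.abs).add ((ent_int hf _).1.abs)
    refine hb.mono' ?_ ?_
    · exact (hf.meas.mul (Real.measurable_log.comp (gg_meas hf K e))).aestronglyMeasurable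
    · filter_upwards [hlog] with x h
      rcases (hf.nonneg x).eq_or_lt with h0 | h0
      · rw [← h0]
        simp only [zero_mul, norm_zero, abs_zero, add_zero, Finset.sum_const_zero, le_refl]
      · rw [h h0, mul_sub, Finset.mul_sum]
        refine (norm_sub_le _ _).trans (add_le_add ?_ ?_)
        · refine (norm_sum_le _ _).trans ?_
          refine (Finset.sum_le_sum_of_subset_of_nonneg (Finset.subset_univ _)
            fun _ _ _ => norm_nonneg _).trans ?_
          refine Finset.sum_le_sum fun t _ => ?_
          rw [mul_sub]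
          exact norm_sub_le _ _
        · rw [norm_mul, Real.norm_eq_abs, abs_of_pos h0]
          refine mul_le_mul_of_nonneg_left ?_ h0.le
          refine (norm_add_le _ _).trans (add_le_add ?_ ?_)
          · rw [Real.norm_eq_abs, abs_of_nonneg (by positivity)]
          · rw [hA]
            exact Finset.single_le_sum (f := fun j => |Real.log (pr μ R j)|)
              (fun _ _ => abs_nonneg _) (Finset.mem_range.2
                (Nat.lt_succ_of_le (Nat.sub_le k _)))
  -- Gibbs
  have hgibbs := gibbs hf (gg_meas (R := R) hf K e)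
    (fun x => mul_nonneg (Finset.prod_nonneg fun t _ => rho_nonneg hf e t x)
      (inv_nonneg.2 (mul_nonneg (by positivity) (hprp x).le))) (m := 1) one_pos
    (gg_lint hR hf hs K e fun j hj => (hP j hj).1) hgpos hint
  rw [Real.log_one, add_zero] at hgibbs
  refine le_trans ?_ hgibbs
  -- the lower bound
  set a : ℝ := Real.log K - p * (k - N) with ha
  set b : ℝ := -(k * Real.log 2) + p / 2 * (k - N) ^ 2 + p * (k - N) * N - δ with hb
  have hvt : ∀ t : Fin k, hv μ K f (ch e t) (e t) =
      ∫ x, (HS μ K f e t).indicator f x ∂P := by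
    intro t
    rw [integral_indicator (hs_meas hf K e t)]
    rfl
  have hIt : ∀ t : Fin k, Integrable ((HS μ K f e t).indicator f) P := fun t =>
    hfi.indicator (hs_meas hf K e t)
  have hIn : Integrable (fun x => ∑ t : Fin k, (HS μ K f e t).indicator f x) P :=
    integrable_finsetSum _ fun t _ => hIt t
  have hcard : ∀ x, ∑ t : Fin k, (HS μ K f e t).indicator f x = f x * (VV μ K f e x).card := by
    intro x
    classical
    rw [Finset.card_eq_sum_ones, Nat.cast_sum, Finset.mul_sum]
    rw [← Finset.sum_subset (Finset.subset_univ (VV μ K f e x))]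
    · refine Finset.sum_congr rfl fun t ht => ?_
      rw [indicator_of_mem ((mem_vv K e x t).1 ht)]
      simp
    · intro t _ ht
      exact indicator_of_notMem (fun h => ht ((mem_vv K e x t).2 h)) _
  have hlow : ∫ x, (a * (∑ t : Fin k, (HS μ K f e t).indicator f x) + b * f x) ∂P ≤
      ∫ x, f x * Real.log (gg μ R K f e x) ∂P := by
    refine integral_mono_ae ((hIn.const_mul a).add (hfi.const_mul b)) hint ?_
    filter_upwards [hlog, hpos1, hpos2] with x h h1 h2
    rcases (hf.nonneg x).eq_or_lt with h0 | h0
    · rw [hcard, ← h0]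
      simp
    · rw [hcard, h h0]
      set n : ℕ := (VV μ K f e x).card with hn
      have hnk : n ≤ k := by
        have := Finset.card_le_univ (VV μ K f e x)
        rwa [Fintype.card_fin] at this
      have hsum : (n : ℝ) * Real.log K ≤ ∑ t ∈ VV μ K f e x,
          (Real.log (mg μ (ch e ((t : ℕ) + 1)) f x) - Real.log (mg μ (ch e t) f x)) := by
        rw [← nsmul_eq_mul]
        refine Finset.card_nsmul_le_sum _ _ _ fun t ht => ?_
        have hK2 : K * mg μ (ch e t) f x < mg μ (ch e ((t : ℕ) + 1)) f x := by
          have h3 := (mem_vv K e x t).1 ht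
          rw [HS, mem_ofPred_eq, ch_succ] at h3
          exact h3
        have hK0 : 0 < K := lt_of_lt_of_le one_pos hK
        have h4 := Real.log_le_log (mul_pos hK0 (h1 t h0)) hK2.le
        rw [Real.log_mul hK0.ne' (h1 t h0).ne'] at h4
        linarith
      have hpr := (hP (k - n) (Nat.sub_le _ _)).2
      rw [Nat.cast_sub hnk] at hpr
      have hsq : p / 2 * ((k : ℝ) - N) ^ 2 - p * (k - N) * (n - N) ≤
          p / 2 * ((k : ℝ) - n) ^ 2 := by
        nlinarith [mul_nonneg hp (sq_nonneg ((n : ℝ) - N))]
      have hfin : a * (n : ℝ) + b ≤ (∑ t ∈ VV μ K f e x,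
          (Real.log (mg μ (ch e ((t : ℕ) + 1)) f x) - Real.log (mg μ (ch e t) f x))) -
            (k * Real.log 2 + Real.log (pr μ R (k - n))) := by
        rw [ha, hb]
        nlinarith
      calc a * (f x * (n : ℝ)) + b * f x = f x * (a * n + b) := by ring
        _ ≤ _ := mul_le_mul_of_nonneg_left hfin h0.le
  refine le_trans (le_of_eq ?_) hlow
  rw [integral_add (hIn.const_mul a) (hfi.const_mul b), integral_const_mul, integral_const_mul,
    integral_finsetSum _ fun t _ => hIt t, hf.int]
  simp_rw [← hvt]
  rw [← hN, ha, hb]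
  ring

end Pool.Agent.Helper34.SM
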